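import Pool.Agent.TH894.NG1
import Pool.Agent.W627.LT.Stm

/-!
# Small split primes of the quadratic fields whose radicands arise by changing a few digits
-/

set_option autoImplicit false

namespace Pool.Agent.Q328.FQ

open Finset Filter
open Pool.Agent.W627.LT (PQ SQ S_P)

/-- The digit number `i` (counted from the right, beginning with `0`) of `n` in base `b`. -/
def digit (b i n : ℕ) : ℕ := n / b ^ i % b

/-- The number which arises from the number `N` with at most `K` digits in base `b`, if for every `i ∈ S`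
the digit number `i` is replaced by `f i`. -/
def change (b K N : ℕ) (f : ℕ → ℕ) (S : Finset ℕ) : ℕ :=
  ∑ i ∈ range K, (if i ∈ S then f i else digit b i N) * b ^ i

open Classical in
/-- The number of the choices of `r` of the `K` positions for which the number obtained by changing the digits of `N` at
the chosen positions (according to `f`) does not have the property `E`. -/
noncomputable def exceptions (b K r N : ℕ) (f : ℕ → ℕ) (E : ℕ → Prop) : ℕ :=
  ((powersetCard r (range K)).filter (fun S => ¬ E (change b K N f S))).card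

lemma exceptions_mono {b K r N : ℕ} {f : ℕ → ℕ} {E E' : ℕ → Prop}
    (h : ∀ S ⊆ range K, E' (change b K N f S) → E (change b K N f S)) : exceptions b K r N f E ≤ exceptions b K r N f E' := by
  classical
  unfold exceptions
  apply card_le_card
  intro S hS
  rw [mem_filter] at hS ⊢
  exact ⟨hS.1, fun hcon => hS.2 (h S (mem_powersetCard.1 hS.1).1 hcon)⟩

lemma digit_sum_lt {b : ℕ} (hb : 2 ≤ b) (K : ℕ) (g : ℕ → ℕ) (hg : ∀ i, g i < b) : ∑ i ∈ range K, g i * b ^ i < b ^ K := by
  induction K with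
  | zero => simp
  | succ K ih =>
    rw [sum_range_succ, pow_succ]
    have h1 : g K * b ^ K ≤ (b - 1) * b ^ K := Nat.mul_le_mul_right _ (by have := hg K; omega)
    have h2 : (b - 1) * b ^ K + b ^ K = b ^ K * b := by
      have : b - 1 + 1 = b := by omega
      calc (b - 1) * b ^ K + b ^ K = (b - 1 + 1) * b ^ K := by ring
        _ = b ^ K * b := by rw [this]; ring
    omega

lemma change_lt {b : ℕ} (hb : 2 ≤ b) (K N : ℕ) (f : ℕ → ℕ) (hf : ∀ j, f j < b) (S : Finset ℕ) : change b K N f S < b ^ K := by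
  unfold change
  refine digit_sum_lt hb K _ ?_
  intro i
  split_ifs
  · exact hf i
  · exact Nat.mod_lt _ (by omega)

/-- the range of the small primes -/
noncomputable def Y (A1 : ℝ) (b K : ℕ) : ℕ := ⌊Real.log ((b : ℝ) ^ K) ^ A1⌋₊

lemma sq_of_jac {y d p : ℕ} (hp : p.Prime) (hpP : p ∈ PQ y) (h0 : (d : ZMod p) ≠ 0) (hs : IsSquare (d : ZMod p)) : p ∈ SQ y d := by
  have : Fact p.Prime := ⟨hp⟩
  unfold Pool.Agent.W627.LT.SQ
  rw [mem_filter]
  refine ⟨hpP, ?_, ?_⟩
  · intro hd
    exact h0 ((ZMod.natCast_eq_zero_iff d p).2 hd)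
  · rw [← jacobiSym.legendreSym.to_jacobiSym]
    rw [legendreSym.eq_one_iff]
    · push_cast
      exact hs
    · push_cast
      exact h0

theorem half (hP : S_P) (b : ℕ) (hb : 2 ≤ b) (A1 : ℝ) (hA1 : 2 ≤ A1) (B M : ℕ) : ∃ C : ℝ, 0 < C ∧ ∃ K₀ : ℕ, ∀ K : ℕ, K₀ ≤ K →
    ∀ r : ℕ, C * Real.log K ≤ r → 2 * r ≤ K → ∀ N : ℕ, N < b ^ K → ∀ f : ℕ → ℕ, (∀ j, f j < b ∧ f j ≠ digit b j N) →
    (exceptions b K r N f (fun m => ∀ u : ℕ, 1 ≤ u → u ≤ K ^ M → ¬ IsSquare (u * m) ∧
      ((Y A1 b K : ℕ) : ℝ) / (20 * Real.log (Y A1 b K : ℕ)) ≤ ((SQ (Y A1 b K) (u * m)).card : ℝ)) : ℝ) ≤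
      1 / (K : ℝ) ^ B * (K.choose r : ℝ) := by
  classical
  obtain ⟨c, hc, x₀, h⟩ := Pool.Agent.TH894.NG.quad_law b hb (1 / 8) (by norm_num) B M
  obtain ⟨y0, hP1⟩ := hP
  have hev : ∀ᶠ x : ℕ in atTop, 17 * (x : ℝ) ^ (1 / 4 : ℝ) ≤ (x : ℝ) / (2 * Real.log x) := by
    have h1 : ∀ᶠ x : ℝ in atTop, 17 * x ^ (1 / 4 : ℝ) ≤ x / (2 * Real.log x) := by
      have h3 := (isLittleO_log_rpow_atTop (by norm_num : (0 : ℝ) < 1 / 4)).bound (by norm_num : (0 : ℝ) < 1)
      have h4 : Tendsto (fun x : ℝ => x ^ (1 / 2 : ℝ)) atTop atTop := tendsto_rpow_atTop (by norm_num)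
      filter_upwards [h3, eventually_gt_atTop 1, h4.eventually (eventually_ge_atTop 34)] with x hx hx1 hx2
      have hl : 0 < Real.log x := Real.log_pos hx1
      rw [Real.norm_of_nonneg hl.le, Real.norm_of_nonneg (by positivity), one_mul] at hx
      rw [le_div_iff₀ (by positivity)]
      have hx0 : 0 < x := by linarith
      have e1 : x = x ^ (1 / 4 : ℝ) * x ^ (1 / 4 : ℝ) * x ^ (1 / 2 : ℝ) := by
        rw [← Real.rpow_add hx0, ← Real.rpow_add hx0]
        norm_num
      have h5 : 0 < x ^ (1 / 4 : ℝ) := by positivity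
      have h6 : 17 * x ^ (1 / 4 : ℝ) * (2 * Real.log x) ≤ 17 * x ^ (1 / 4 : ℝ) * (2 * x ^ (1 / 4 : ℝ)) := by
        gcongr
      have h7 : x ^ (1 / 4 : ℝ) * x ^ (1 / 4 : ℝ) * 34 ≤ x ^ (1 / 4 : ℝ) * x ^ (1 / 4 : ℝ) * x ^ (1 / 2 : ℝ) := by
        gcongr
      calc _ ≤ 17 * x ^ (1 / 4 : ℝ) * (2 * x ^ (1 / 4 : ℝ)) := h6
        _ = x ^ (1 / 4 : ℝ) * x ^ (1 / 4 : ℝ) * 34 := by ring
        _ ≤ _ := h7
        _ = x := e1.symm
    exact tendsto_natCast_atTop_atTop.eventually h1
  obtain ⟨x₁, hx₁⟩ := eventually_atTop.1 hev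
  refine ⟨2 * A1 / c, by positivity, x₀ + x₁ + y0 + b + 5, fun K hK r hr hrK N hN f hf => ?_⟩
  have hb2 : (2 : ℝ) ≤ b := by exact_mod_cast hb
  have hK5 : (5 : ℝ) ≤ K := by exact_mod_cast (by omega : 5 ≤ K)
  have hKb : (b : ℝ) ≤ K := by exact_mod_cast (by omega : b ≤ K)
  have hlb : Real.log 2 ≤ Real.log b := Real.log_le_log (by norm_num) hb2
  have hl2 := Real.log_two_gt_d9
  have hlbb : Real.log b ≤ b := (Real.log_le_sub_one_of_pos (by linarith)).trans (by linarith)
  have hL : Real.log ((b : ℝ) ^ K) = K * Real.log b := Real.log_pow _ _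
  obtain ⟨L, hLdef⟩ : ∃ L, L = Real.log ((b : ℝ) ^ K) := ⟨_, rfl⟩
  have hLlow : 0.69 * (K : ℝ) ≤ L := by
    rw [hLdef, hL]
    nlinarith
  have hL1 : 1 ≤ L := by linarith
  have hLhigh : L ≤ (K : ℝ) ^ 2 := by
    rw [hLdef, hL, sq]
    exact mul_le_mul_of_nonneg_left (hlbb.trans hKb) (by linarith)
  obtain ⟨y, hy⟩ : ∃ y, y = Y A1 b K := ⟨_, rfl⟩
  have hyfl : y = ⌊L ^ A1⌋₊ := by rw [hy, hLdef]; rfl
  have hKy : K ≤ y := by
    rw [hyfl]
    apply Nat.le_floor
    calc (K : ℝ) ≤ (0.69 * K) ^ 2 := by nlinarith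
      _ ≤ L ^ 2 := by
        have : (0 : ℝ) ≤ 0.69 * K := by positivity
        gcongr
      _ = L ^ (2 : ℝ) := by norm_cast
      _ ≤ L ^ A1 := Real.rpow_le_rpow_of_exponent_le hL1 hA1
  have hy0 : (0 : ℝ) < y := by exact_mod_cast (by omega : 0 < y)
  have hlogy : Real.log y ≤ c * r := by
    have h1 : (y : ℝ) ≤ L ^ A1 := by rw [hyfl]; exact Nat.floor_le (by positivity)
    have h2 : Real.log y ≤ A1 * Real.log L := by
      rw [← Real.log_rpow (by linarith)]
      exact Real.log_le_log hy0 h1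
    have h3 : Real.log L ≤ 2 * Real.log K := by
      have := Real.log_le_log (by linarith) hLhigh
      rwa [Real.log_pow, Nat.cast_ofNat] at this
    have h4 : 2 * A1 * Real.log K ≤ c * r := by
      have := mul_le_mul_of_nonneg_left hr hc.le
      calc 2 * A1 * Real.log K = c * (2 * A1 / c * Real.log K) := by field_simp
        _ ≤ c * r := this
    nlinarith
  obtain ⟨E, hE⟩ : ∃ E : ℕ → Prop, E = fun m => ∀ u : ℕ, 1 ≤ u → u ≤ K ^ M → ¬ IsSquare (u * m) ∧
      ((Y A1 b K : ℕ) : ℝ) / (20 * Real.log (Y A1 b K : ℕ)) ≤ ((SQ (Y A1 b K) (u * m)).card : ℝ) := ⟨_, rfl⟩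
  rw [← hE]
  have key : (exceptions b K r N f E : ℝ) ≤ (y : ℝ) ^ (-(B : ℝ)) * (K.choose r : ℝ) := by
    unfold exceptions
    refine h r K y hrK (by omega) N hN f hf (fun x => PQ x) ?_ _ (filter_subset _ _) ?_
    · intro x p hp
      have h1 : p ∈ (Finset.Icc 3 x).filter Nat.Prime := hp
      rw [mem_filter, mem_Icc] at h1
      exact ⟨h1.2, h1.1.2⟩
    · intro S hS
      rw [mem_filter] at hS
      obtain ⟨_, hS2⟩ := hS
      by_contra hcon
      apply hS2
      rw [hE]
      intro u hu1 huK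
      obtain ⟨m, hm⟩ : ∃ m, m = change b K N f S := ⟨_, rfl⟩
      have hm' : Pool.Agent.TH894.SM.change b K N f S = m := hm.symm
      rw [hm'] at hcon
      rw [← hm, ← hy]
      have hlaw : ∀ t : Bool, |(Pool.Agent.TH894.NG.cq (PQ y) ((u : ℤ), t) m : ℝ) - (PQ y).card / 2| ≤ Real.sqrt (PQ y).card * (y : ℝ) ^ (1 / 8 : ℝ) := by
        intro t
        by_contra hlt
        push Not at hlt
        refine hcon ⟨y, le_rfl, hlogy, ((u : ℤ), t), ?_, ?_, hlt⟩
        · show (u : ℤ) ≠ 0
          exact_mod_cast (by omega : u ≠ 0)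
        · show |(u : ℤ)| ≤ (y : ℤ) ^ M
          have h1 : K ^ M ≤ y ^ M := Nat.pow_le_pow_left hKy M
          rw [abs_of_nonneg (by positivity)]
          exact_mod_cast huK.trans h1
      have hcard : (y : ℝ) / (2 * Real.log y) ≤ (PQ y).card := hP1 y (by omega)
      have hbig : 17 * (y : ℝ) ^ (1 / 4 : ℝ) ≤ (y : ℝ) / (2 * Real.log y) := hx₁ y (by omega)
      obtain ⟨n, hn⟩ : ∃ n : ℝ, n = ((PQ y).card : ℝ) := ⟨_, rfl⟩
      rw [← hn] at hcard
      have hn0 : 0 ≤ n := by rw [hn]; positivity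
      have hlogpos : 0 < Real.log y := Real.log_pos (by exact_mod_cast (by omega : 1 < y))
      have hy4 : 0 < (y : ℝ) ^ (1 / 4 : ℝ) := by positivity
      have herr : Real.sqrt n * (y : ℝ) ^ (1 / 8 : ℝ) ≤ n / 4 := by
        have e1 : (y : ℝ) ^ (1 / 8 : ℝ) = Real.sqrt ((y : ℝ) ^ (1 / 4 : ℝ)) := by
          rw [Real.sqrt_eq_rpow, ← Real.rpow_mul hy0.le]
          norm_num
        have h16 : 16 * (y : ℝ) ^ (1 / 4 : ℝ) ≤ n := by linarith
        have e2 : Real.sqrt ((y : ℝ) ^ (1 / 4 : ℝ)) ≤ Real.sqrt (n / 16) := Real.sqrt_le_sqrt (by linarith)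
        have e3 : Real.sqrt (n / 16) = Real.sqrt n / 4 := by
          rw [Real.sqrt_div hn0]
          congr 1
          rw [show (16 : ℝ) = 4 ^ 2 by norm_num]
          exact Real.sqrt_sq (by norm_num)
        rw [e1]
        calc Real.sqrt n * Real.sqrt ((y : ℝ) ^ (1 / 4 : ℝ)) ≤ Real.sqrt n * (Real.sqrt n / 4) := by
              rw [← e3]
              exact mul_le_mul_of_nonneg_left e2 (Real.sqrt_nonneg _)
          _ = (Real.sqrt n * Real.sqrt n) / 4 := by ring
          _ = n / 4 := by rw [Real.mul_self_sqrt hn0]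
      constructor
      · intro hsq
        have h1 := abs_le.1 (hlaw false)
        rw [← hn] at h1
        have h2 : Pool.Agent.TH894.NG.cq (PQ y) ((u : ℤ), false) m = 0 := by
          unfold Pool.Agent.TH894.NG.cq
          rw [card_eq_zero, filter_eq_empty_iff]
          intro p _ hcon2
          unfold Pool.Agent.TH894.NG.Tq at hcon2
          simp only [Bool.false_eq_true, if_false] at hcon2
          apply hcon2
          obtain ⟨w, hw⟩ := hsq
          refine ⟨(w : ZMod p), ?_⟩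
          push_cast
          exact_mod_cast congrArg (Nat.cast : ℕ → ZMod p) hw
        rw [h2, Nat.cast_zero] at h1
        have h3 : 0 < n := by linarith
        linarith [h1.1]
      · have h1 := abs_le.1 (hlaw true)
        rw [← hn] at h1
        have h2 : Pool.Agent.TH894.NG.cq (PQ y) ((u : ℤ), true) m ≤ (SQ y (u * m)).card := by
          unfold Pool.Agent.TH894.NG.cq
          apply card_le_card
          intro p hp
          rw [mem_filter] at hp
          obtain ⟨hpP, hpT⟩ := hp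
          unfold Pool.Agent.TH894.NG.Tq at hpT
          simp only [if_true] at hpT
          have hpp : p.Prime := by
            have h1 : p ∈ (Finset.Icc 3 y).filter Nat.Prime := hpP
            rw [mem_filter] at h1
            exact h1.2
          apply sq_of_jac hpp hpP
          · have := hpT.1
            push_cast at this ⊢
            exact this
          · have := hpT.2
            push_cast at this ⊢
            exact this
        have h3 : (Pool.Agent.TH894.NG.cq (PQ y) ((u : ℤ), true) m : ℝ) ≤ ((SQ y (u * m)).card : ℝ) := by exact_mod_cast h2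
        have h4 : (y : ℝ) / (20 * Real.log y) ≤ (y : ℝ) / (2 * Real.log y) / 10 := by
          rw [div_div]
          apply le_of_eq
          ring
        have h5 := h1.1
        have h6 : 0 ≤ (y : ℝ) / (2 * Real.log y) := by positivity
        linarith
  refine key.trans ?_
  apply mul_le_mul_of_nonneg_right _ (Nat.cast_nonneg _)
  rw [Real.rpow_neg hy0.le, Real.rpow_natCast, one_div]
  apply inv_anti₀ (by positivity)
  have : (K : ℝ) ≤ y := by exact_mod_cast hKy
  gcongr

end Pool.Agent.Q328.FQ
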